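import Mathlib

/-!
# Upper directed `p`-domination versus independence in uniform hypergraphs

For every `r`-uniform hypergraph `H` of order `n ≥ 2` and all `1 ≤ p ≤ r - 1` the upper directed
`p`-domination number is at most `c * α(H) * ln n` with an absolute constant `c`.

Proof: colour the undominated vertices uniformly with `N ≈ m / (4 α)` colours.  In each colour class
`R` the vertices not reached by a first-`p` set inside `R` form an independent set.  Averaging over
colourings and classes gives a set `R` of at most `16 α` vertices which dominates at least half of the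
`m` undominated vertices.  Iterate.
-/

open Finset

namespace Pool.Agent.Results.MP_8fb7e7_co.DominationIndependence

universe u

/-- An `r`-uniform hypergraph on the vertex type `V`: a finite set of `r`-element edges. -/
structure UHypergraph (V : Type u) [DecidableEq V] (r : ℕ) where
  edges : Finset (Finset V)
  card_eq : ∀ e ∈ edges, e.card = r

variable {V : Type u} [Fintype V] [DecidableEq V] {r : ℕ}

/-- An orientation of `H`: every edge gets a linear ordering of its vertices, written as the list
`ord e` (without repetition, with underlying set `e`). -/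
structure Orient (H : UHypergraph V r) where
  ord : Finset V → List V
  nodup : ∀ e ∈ H.edges, (ord e).Nodup
  toFinset_eq : ∀ e ∈ H.edges, (ord e).toFinset = e

/-- `S` is a directed `p`-dominating set of `D`: every vertex `u` outside `S` lies in an edge whose
first `p` vertices all belong to `S`. -/
def IsDominating (H : UHypergraph V r) (D : Orient H) (p : ℕ) (S : Finset V) : Prop :=
  ∀ u, u ∉ S → ∃ e ∈ H.edges, u ∈ e ∧ ∀ x ∈ (D.ord e).take p, x ∈ S

/-- The minimum size of a directed `p`-dominating set of the orientation `D`. -/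
noncomputable def domNumber (H : UHypergraph V r) (D : Orient H) (p : ℕ) : ℕ :=
  sInf {k | ∃ S : Finset V, IsDominating H D p S ∧ S.card = k}

/-- The upper directed `p`-domination number: the maximum of `domNumber` over all orientations. -/
noncomputable def upperDomNumber (H : UHypergraph V r) (p : ℕ) : ℕ :=
  sSup {k | ∃ D : Orient H, domNumber H D p = k}

/-- A set of vertices is independent if it contains no edge. -/
def IsIndep (H : UHypergraph V r) (S : Finset V) : Prop := ∀ e ∈ H.edges, ¬ e ⊆ S

/-- The independence number: the largest size of an independent set. -/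
noncomputable def indepNumber (H : UHypergraph V r) : ℕ :=
  sSup {k | ∃ S : Finset V, IsIndep H S ∧ S.card = k}

/-! ## The averaging identity -/

theorem swap_count (N : ℕ) (u : V) (P : (V → Fin N) → Fin N → Prop) [∀ f j, Decidable (P f j)]
    (hP : ∀ f j i, P (Function.update f u i) j ↔ P f j) :
    (∑ f : V → Fin N, ∑ j : Fin N, (if P f j then 1 else 0 : ℕ))
      = N * ∑ f : V → Fin N, (if P f (f u) then 1 else 0 : ℕ) := by
  classical
  let σ : ((V → Fin N) × Fin N) ≃ ((V → Fin N) × Fin N) :=
    { toFun := fun x => (Function.update x.1 u x.2, x.1 u)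
      invFun := fun x => (Function.update x.1 u x.2, x.1 u)
      left_inv := by
        rintro ⟨f, j⟩
        simp
      right_inv := by
        rintro ⟨f, j⟩
        simp }
  have h1 : (∑ f : V → Fin N, ∑ j : Fin N, (if P f j then 1 else 0 : ℕ))
      = ∑ x : (V → Fin N) × Fin N, (if P x.1 x.2 then 1 else 0 : ℕ) := by
    rw [Fintype.sum_prod_type]
  have h2 : (∑ x : (V → Fin N) × Fin N, (if P x.1 x.2 then 1 else 0 : ℕ))
      = ∑ x : (V → Fin N) × Fin N, (if P (σ x).1 ((σ x).1 u) then 1 else 0 : ℕ) := by
    refine Finset.sum_congr rfl ?_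
    rintro ⟨f, j⟩ _
    have : P (σ (f, j)).1 ((σ (f, j)).1 u) ↔ P f j := by
      show P (Function.update f u j) ((Function.update f u j) u) ↔ P f j
      rw [Function.update_self]
      exact hP f j j
    simp only [this]
  have h3 : (∑ x : (V → Fin N) × Fin N, (if P (σ x).1 ((σ x).1 u) then 1 else 0 : ℕ))
      = ∑ x : (V → Fin N) × Fin N, (if P x.1 (x.1 u) then 1 else 0 : ℕ) :=
    Equiv.sum_comp σ (fun x => (if P x.1 (x.1 u) then 1 else 0 : ℕ))
  rw [h1, h2, h3, Fintype.sum_prod_type, Finset.mul_sum]
  refine Finset.sum_congr rfl ?_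
  intro f _
  by_cases h : P f (f u) <;> simp [h]

section core

variable (E : Finset (Finset V)) (F : Finset V → Finset V)

/-- `u` is reached from `S`. -/
def Reach (u : V) (S : Finset V) : Prop := ∃ e ∈ E, u ∈ e ∧ u ∉ F e ∧ F e ⊆ S

open Classical in
theorem indep_part (α : ℕ) (hF : ∀ e ∈ E, F e ⊆ e ∧ ∃ u ∈ e, u ∉ F e)
    (hα : ∀ I : Finset V, (∀ e ∈ E, ¬ e ⊆ I) → I.card ≤ α) (R : Finset V) :
    (R.filter (fun u => ¬ Reach E F u R)).card ≤ α := by
  refine hα _ ?_
  intro e he hsub
  obtain ⟨hFe, u, hu, huF⟩ := hF e he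
  have hu' := hsub hu
  rw [Finset.mem_filter] at hu'
  exact hu'.2 ⟨e, he, hu, huF, fun x hx => (Finset.mem_filter.1 (hsub (hFe hx))).1⟩

open Classical in
theorem exists_R (α : ℕ) (hF : ∀ e ∈ E, F e ⊆ e ∧ ∃ u ∈ e, u ∉ F e)
    (hα : ∀ I : Finset V, (∀ e ∈ E, ¬ e ⊆ I) → I.card ≤ α) (U : Finset V) (N : ℕ) (hN : 1 ≤ N)
    (hU : 4 * (N * α) ≤ U.card) :
    ∃ R ⊆ U, 2 * U.card + N * R.card ≤ 4 * (U.filter (fun u => Reach E F u R)).card := by
  by_contra hcon
  push Not at hcon
  set R : (V → Fin N) → Fin N → Finset V := fun f j => U.filter (fun v => f v = j) with hR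
  have hRU : ∀ f j, R f j ⊆ U := fun f j => Finset.filter_subset _ _
  -- own(f)
  have hown : ∀ f : V → Fin N,
      U.card ≤ (U.filter (fun u => Reach E F u (R f (f u)))).card + N * α := by
    intro f
    have h1 := Finset.card_filter_add_card_filter_not (s := U)
      (fun u => Reach E F u (R f (f u)))
    have h2 : (U.filter (fun u => ¬ Reach E F u (R f (f u)))).card ≤ N * α := by
      have h3 : (U.filter (fun u => ¬ Reach E F u (R f (f u)))).card
          = ∑ j : Fin N, ((U.filter (fun u => ¬ Reach E F u (R f (f u)))).filter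
              (fun u => f u = j)).card :=
        Finset.card_eq_sum_card_fiberwise (fun x _ => Finset.mem_coe.2 (Finset.mem_univ _))
      rw [h3]
      calc ∑ j : Fin N, ((U.filter (fun u => ¬ Reach E F u (R f (f u)))).filter
              (fun u => f u = j)).card
          ≤ ∑ _j : Fin N, α := by
            refine Finset.sum_le_sum ?_
            intro j _
            refine le_trans (Finset.card_le_card ?_) (indep_part E F α hF hα (R f j))
            intro u hu
            rw [Finset.mem_filter, Finset.mem_filter] at hu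
            rw [Finset.mem_filter]
            refine ⟨Finset.mem_filter.2 ⟨hu.1.1, hu.2⟩, ?_⟩
            rw [← hu.2]
            exact hu.1.2
        _ = N * α := by simp
    omega
  have hsumR : ∀ f : V → Fin N, ∑ j : Fin N, (R f j).card = U.card := by
    intro f
    exact (Finset.card_eq_sum_card_fiberwise
      (fun x _ => Finset.mem_coe.2 (Finset.mem_univ _))).symm
  -- the averaging identity
  have hkey : ∑ f : V → Fin N, ∑ j : Fin N, (U.filter (fun u => Reach E F u (R f j))).card
      = N * ∑ f : V → Fin N, (U.filter (fun u => Reach E F u (R f (f u)))).card := by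
    have e1 : ∀ (f : V → Fin N) (j : Fin N), (U.filter (fun u => Reach E F u (R f j))).card
        = ∑ u ∈ U, (if Reach E F u (R f j) then 1 else 0) := by
      intro f j
      rw [Finset.card_filter]
    have e2 : ∀ (f : V → Fin N), (U.filter (fun u => Reach E F u (R f (f u)))).card
        = ∑ u ∈ U, (if Reach E F u (R f (f u)) then 1 else 0) := by
      intro f
      rw [Finset.card_filter]
    simp only [e1, e2]
    have e3 : ∑ f : V → Fin N, ∑ j : Fin N, ∑ u ∈ U, (if Reach E F u (R f j) then 1 else 0 : ℕ)
        = ∑ u ∈ U, ∑ f : V → Fin N, ∑ j : Fin N, (if Reach E F u (R f j) then 1 else 0 : ℕ) := by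
      rw [Finset.sum_comm (s := U)]
      exact Finset.sum_congr rfl (fun f _ => Finset.sum_comm)
    have e4 : ∑ f : V → Fin N, ∑ u ∈ U, (if Reach E F u (R f (f u)) then 1 else 0 : ℕ)
        = ∑ u ∈ U, ∑ f : V → Fin N, (if Reach E F u (R f (f u)) then 1 else 0 : ℕ) :=
      Finset.sum_comm
    rw [e3, e4, Finset.mul_sum]
    refine Finset.sum_congr rfl ?_
    intro u _
    refine swap_count N u (fun f j => Reach E F u (R f j)) ?_
    intro f j i
    constructor
    · rintro ⟨e, he, hu, huF, hsub⟩
      refine ⟨e, he, hu, huF, ?_⟩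
      intro x hx
      have hxu : x ≠ u := fun h => huF (h ▸ hx)
      have := hsub hx
      rw [hR] at this ⊢
      simp only [Finset.mem_filter] at this ⊢
      rw [Function.update_of_ne hxu] at this
      exact this
    · rintro ⟨e, he, hu, huF, hsub⟩
      refine ⟨e, he, hu, huF, ?_⟩
      intro x hx
      have hxu : x ≠ u := fun h => huF (h ▸ hx)
      have := hsub hx
      rw [hR] at this ⊢
      simp only [Finset.mem_filter] at this ⊢
      rw [Function.update_of_ne hxu]
      exact this
  set T := Fintype.card (V → Fin N) with hT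
  have hTpos : 0 < T := by
    have : Nonempty (Fin N) := ⟨⟨0, hN⟩⟩
    exact Fintype.card_pos
  have hlow : N * (T * U.card) ≤ N * (∑ f : V → Fin N,
      (U.filter (fun u => Reach E F u (R f (f u)))).card) + N * (T * (N * α)) := by
    rw [← Nat.mul_add]
    refine Nat.mul_le_mul_left _ ?_
    calc T * U.card = ∑ _f : V → Fin N, U.card := by simp [hT]
      _ ≤ ∑ f : V → Fin N, ((U.filter (fun u => Reach E F u (R f (f u)))).card + N * α) :=
          Finset.sum_le_sum (fun f _ => hown f)
      _ = _ := by rw [Finset.sum_add_distrib]; simp [hT]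
  have hup : ∑ f : V → Fin N, ∑ j : Fin N, 4 * (U.filter (fun u => Reach E F u (R f j))).card
      < ∑ f : V → Fin N, ∑ j : Fin N, (2 * U.card + N * (R f j).card) := by
    have : Nonempty (Fin N) := ⟨⟨0, hN⟩⟩
    refine Finset.sum_lt_sum_of_nonempty Finset.univ_nonempty ?_
    intro f _
    refine Finset.sum_lt_sum_of_nonempty Finset.univ_nonempty ?_
    intro j _
    exact hcon (R f j) (hRU f j)
  have hl : ∑ f : V → Fin N, ∑ j : Fin N, 4 * (U.filter (fun u => Reach E F u (R f j))).card
      = 4 * (N * ∑ f : V → Fin N, (U.filter (fun u => Reach E F u (R f (f u)))).card) := by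
    rw [← hkey, Finset.mul_sum]
    refine Finset.sum_congr rfl ?_
    intro f _
    rw [Finset.mul_sum]
  have hr : ∑ f : V → Fin N, ∑ j : Fin N, (2 * U.card + N * (R f j).card)
      = 3 * (N * (T * U.card)) := by
    have : ∀ f : V → Fin N, ∑ j : Fin N, (2 * U.card + N * (R f j).card) = 3 * (N * U.card) := by
      intro f
      rw [Finset.sum_add_distrib, ← Finset.mul_sum Finset.univ (fun j => (R f j).card) N, hsumR f]
      simp
      ring
    rw [Finset.sum_congr rfl (fun f _ => this f)]
    simp [hT]
    ring
  rw [hl, hr] at hup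
  have h4 : 4 * (N * (T * (N * α))) ≤ N * (T * U.card) := by
    calc 4 * (N * (T * (N * α))) = N * (T * (4 * (N * α))) := by ring
      _ ≤ N * (T * U.card) := Nat.mul_le_mul_left _ (Nat.mul_le_mul_left _ hU)
  omega

open Classical in
theorem greedy (α : ℕ) (hα1 : 1 ≤ α) (hF : ∀ e ∈ E, F e ⊆ e ∧ ∃ u ∈ e, u ∉ F e)
    (hα : ∀ I : Finset V, (∀ e ∈ E, ¬ e ⊆ I) → I.card ≤ α) (t : ℕ) :
    ∀ U : Finset V, U.card ≤ 4 * α * 2 ^ t →
      ∃ S : Finset V, S.card ≤ 16 * α * t + 4 * α ∧
        ∀ u ∈ U, u ∉ S → ∃ e ∈ E, u ∈ e ∧ F e ⊆ S := by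
  induction t with
  | zero =>
    intro U hU
    refine ⟨U, by simpa using hU, fun u hu hu' => absurd hu hu'⟩
  | succ t ih =>
    intro U hU
    by_cases hsmall : U.card < 4 * α
    · refine ⟨U, by nlinarith, fun u hu hu' => absurd hu hu'⟩
    · push Not at hsmall
      set N := U.card / (4 * α) with hNdef
      have hN1 : 1 ≤ N := (Nat.one_le_div_iff (by positivity)).2 hsmall
      have hNle : N * (4 * α) ≤ U.card := Nat.div_mul_le_self _ _
      have hNge : U.card < (N + 1) * (4 * α) := by
        have h1 := Nat.div_add_mod U.card (4 * α)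
        have h2 := Nat.mod_lt U.card (show 4 * α > 0 by positivity)
        rw [← hNdef] at h1
        nlinarith
      obtain ⟨R, hRU, hR⟩ := exists_R E F α hF hα U N hN1 (by linarith [hNle])
      have hRcard : R.card ≤ 16 * α := by
        have hdom : (U.filter (fun u => Reach E F u R)).card ≤ U.card := Finset.card_filter_le _ _
        have h1 : N * R.card ≤ 2 * U.card := by omega
        have h2 : U.card ≤ 2 * N * (4 * α) := by nlinarith
        have h3 : N * R.card ≤ N * (16 * α) := by nlinarith
        exact Nat.le_of_mul_le_mul_left h3 hN1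
      set U' := U.filter (fun u => ¬ Reach E F u R) with hU'
      have hU'card : U'.card ≤ 4 * α * 2 ^ t := by
        have h1 := Finset.card_filter_add_card_filter_not (s := U) (fun u => Reach E F u R)
        have h2 : 2 * U'.card ≤ U.card := by
          rw [hU']
          have : 2 * U.card ≤ 4 * (U.filter (fun u => Reach E F u R)).card := by
            have := Nat.zero_le (N * R.card)
            omega
          omega
        have h3 : 4 * α * 2 ^ (t + 1) = 2 * (4 * α * 2 ^ t) := by ring
        omega
      obtain ⟨S, hScard, hS⟩ := ih U' hU'card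
      refine ⟨R ∪ S, ?_, ?_⟩
      · calc (R ∪ S).card ≤ R.card + S.card := Finset.card_union_le _ _
          _ ≤ 16 * α + (16 * α * t + 4 * α) := by omega
          _ = 16 * α * (t + 1) + 4 * α := by ring
      · intro u hu huS
        rw [Finset.mem_union, not_or] at huS
        by_cases hq : Reach E F u R
        · obtain ⟨e, he, hue, _, hsub⟩ := hq
          exact ⟨e, he, hue, hsub.trans Finset.subset_union_left⟩
        · obtain ⟨e, he, hue, hsub⟩ := hS u (Finset.mem_filter.2 ⟨hu, hq⟩) huS.2
          exact ⟨e, he, hue, hsub.trans Finset.subset_union_right⟩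

end core

open Classical in
/-- **Main theorem.**  There is an absolute constant `c > 0` such that for all `1 ≤ p < r` and every
`r`-uniform hypergraph `H` of order `n ≥ 2`, the upper directed `p`-domination number of `H` is at
most `c * α(H) * ln n`. -/
theorem result : ∃ c : ℝ, 0 < c ∧ ∀ (r p : ℕ), 1 ≤ p → p < r →
    ∀ (V : Type u) [Fintype V] [DecidableEq V] (H : UHypergraph V r), 2 ≤ Fintype.card V →
      (upperDomNumber H p : ℝ) ≤ c * (indepNumber H : ℝ) * Real.log (Fintype.card V) := by
  refine ⟨60, by norm_num, ?_⟩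
  intro r p hp1 hpr V _ _ H hn
  set α := indepNumber H with hαdef
  -- independence number facts
  have hbdd : BddAbove {k | ∃ S : Finset V, IsIndep H S ∧ S.card = k} := by
    refine ⟨Fintype.card V, ?_⟩
    rintro k ⟨S, _, rfl⟩
    exact Finset.card_le_univ S
  have hαle : ∀ I : Finset V, (∀ e ∈ H.edges, ¬ e ⊆ I) → I.card ≤ α := by
    intro I hI
    exact le_csSup hbdd ⟨I, hI, rfl⟩
  have hα1 : 1 ≤ α := by
    have hne : Nonempty V := Fintype.card_pos_iff.1 (by omega)
    obtain ⟨v⟩ := hne
    refine le_trans (by simp) (hαle {v} ?_)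
    intro e he hsub
    have := Finset.card_le_card hsub
    rw [H.card_eq e he, Finset.card_singleton] at this
    omega
  -- every orientation has a small dominating set
  have hdom : ∀ D : Orient H, ((domNumber H D p : ℕ) : ℝ)
      ≤ 60 * (α : ℝ) * Real.log (Fintype.card V) := by
    intro D
    set t := Nat.log 2 (Fintype.card V) + 1 with ht
    have hF : ∀ e ∈ H.edges, ((D.ord e).take p).toFinset ⊆ e ∧
        ∃ u ∈ e, u ∉ ((D.ord e).take p).toFinset := by
      intro e he
      have hsub : ((D.ord e).take p).toFinset ⊆ e := by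
        intro x hx
        rw [List.mem_toFinset] at hx
        have := List.mem_of_mem_take hx
        rw [← D.toFinset_eq e he, List.mem_toFinset]
        exact this
      refine ⟨hsub, ?_⟩
      by_contra hcon
      push Not at hcon
      have h1 : e ⊆ ((D.ord e).take p).toFinset := hcon
      have h2 := Finset.card_le_card h1
      have h3 := List.toFinset_card_le ((D.ord e).take p)
      have h4 : ((D.ord e).take p).length ≤ p := by
        rw [List.length_take]
        exact min_le_left _ _
      have h5 := H.card_eq e he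
      omega
    have hcard : (Finset.univ : Finset V).card ≤ 4 * α * 2 ^ t := by
      rw [Finset.card_univ]
      have h1 : Fintype.card V < 2 ^ t := Nat.lt_pow_succ_log_self (by norm_num) _
      nlinarith
    obtain ⟨S, hScard, hS⟩ := greedy H.edges (fun e => ((D.ord e).take p).toFinset) α hα1 hF hαle t
      Finset.univ hcard
    have hSdom : IsDominating H D p S := by
      intro u hu
      obtain ⟨e, he, hue, hsub⟩ := hS u (Finset.mem_univ _) hu
      exact ⟨e, he, hue, fun x hx => hsub (List.mem_toFinset.2 hx)⟩
    have h1 : domNumber H D p ≤ S.card := Nat.sInf_le ⟨S, hSdom, rfl⟩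
    have h2 : domNumber H D p ≤ 16 * α * t + 4 * α := h1.trans hScard
    have hlog2 : (0.6931471803 : ℝ) < Real.log 2 := Real.log_two_gt_d9
    have hlogn : Real.log 2 ≤ Real.log (Fintype.card V) :=
      Real.log_le_log (by norm_num) (by exact_mod_cast hn)
    have hlog : (Nat.log 2 (Fintype.card V) : ℝ) * Real.log 2 ≤ Real.log (Fintype.card V) := by
      have h3 : 2 ^ (Nat.log 2 (Fintype.card V)) ≤ Fintype.card V :=
        Nat.pow_log_le_self 2 (by omega)
      have h4 : ((2 : ℝ) ^ (Nat.log 2 (Fintype.card V))) ≤ (Fintype.card V : ℝ) := by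
        exact_mod_cast h3
      have h5 := Real.log_le_log (by positivity) h4
      rwa [Real.log_pow] at h5
    have h2' : ((domNumber H D p : ℕ) : ℝ) ≤ 16 * (α : ℝ) * ((Nat.log 2 (Fintype.card V) : ℝ) + 1)
        + 4 * α := by
      have : ((domNumber H D p : ℕ) : ℝ) ≤ ((16 * α * t + 4 * α : ℕ) : ℝ) := by exact_mod_cast h2
      rw [ht] at this
      push_cast at this
      linarith
    have hαR : (1 : ℝ) ≤ (α : ℝ) := by exact_mod_cast hα1
    set L := Real.log (Fintype.card V) with hL
    set l := (Nat.log 2 (Fintype.card V) : ℝ) with hl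
    have h6 : 16 * (l + 1) + 4 ≤ 60 * L := by
      have hl0 : 0 ≤ l := by positivity
      have h7 : l * 0.6931471803 ≤ L := le_trans (by nlinarith) hlog
      nlinarith
    calc ((domNumber H D p : ℕ) : ℝ) ≤ 16 * (α : ℝ) * (l + 1) + 4 * α := h2'
      _ = α * (16 * (l + 1) + 4) := by ring
      _ ≤ α * (60 * L) := by
          refine mul_le_mul_of_nonneg_left h6 (by positivity)
      _ = 60 * (α : ℝ) * L := by ring
  -- pass to the supremum over all orientations
  have hfin : BddAbove {k | ∃ D : Orient H, domNumber H D p = k} := by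
    refine ⟨Fintype.card V, ?_⟩
    rintro k ⟨D, rfl⟩
    have : IsDominating H D p Finset.univ := fun u hu => absurd (Finset.mem_univ u) hu
    exact Nat.sInf_le ⟨Finset.univ, this, rfl⟩
  have hne : {k | ∃ D : Orient H, domNumber H D p = k}.Nonempty := by
    refine ⟨_, ⟨⟨fun e => e.toList, fun e _ => Finset.nodup_toList e, fun e _ => by simp⟩, rfl⟩⟩
  obtain ⟨D, hD⟩ := Nat.sSup_mem hne hfin
  show ((sSup {k | ∃ D : Orient H, domNumber H D p = k} : ℕ) : ℝ) ≤ _
  rw [← hD]
  exact hdom D

end Pool.Agent.Results.MP_8fb7e7_co.DominationIndependence
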